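import Mathlib

/-!
Kolmogorov-Sinai entropy, pressure and equilibrium states.
-/

namespace Pool.Agent.P.MP_eeb913_an

open MeasureTheory Filter

/-- The Shannon entropy `- ∑ ν(A i) log ν(A i)` of the finite partition `A i = τ ⁻¹ {i}`. -/
noncomputable def partitionEntropy {X ι : Type} [MeasurableSpace X] [Fintype ι] (ν : Measure X)
    (τ : X → ι) : ℝ :=
  ∑ i, Real.negMulLog (ν.real (τ ⁻¹' {i}))

/-- The Kolmogorov-Sinai entropy: the supremum over finite measurable partitions `α` of
`limsup (1/n) H (α ∨ f⁻¹ α ∨ ... ∨ f^{-(n-1)} α)`. -/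
noncomputable def ksEntropy {X : Type} [MeasurableSpace X] (f : X → X) (ν : Measure X) : EReal :=
  ⨆ (k : ℕ) (α : X → Fin k) (_ : Measurable α),
    limsup (fun n : ℕ =>
      ((partitionEntropy ν (fun (x : X) (i : Fin n) => α (f^[i] x)) / n : ℝ) : EReal)) atTop

/-- `ν` is an `f`-invariant probability measure. -/
def IsInvariantProb {X : Type} [MeasurableSpace X] (f : X → X) (ν : Measure X) : Prop :=
  IsProbabilityMeasure ν ∧ MeasurePreserving f ν ν

/-- The pressure `sup (h_ν + ∫ φ dν)` over invariant probability measures `ν`. -/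
noncomputable def pressure {X : Type} [MeasurableSpace X] (f : X → X) (φ : X → ℝ) : EReal :=
  ⨆ (ν : Measure X) (_ : IsInvariantProb f ν), ksEntropy f ν + ((∫ x, φ x ∂ν : ℝ) : EReal)

/-- `μ` is an equilibrium state for the weight `φ`. -/
def IsEquilibrium {X : Type} [MeasurableSpace X] (f : X → X) (φ : X → ℝ) (μ : Measure X) : Prop :=
  IsInvariantProb f μ ∧ ksEntropy f μ + ((∫ x, φ x ∂μ : ℝ) : EReal) = pressure f φ

end Pool.Agent.P.MP_eeb913_an
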