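import Mathlib
import Pool.Agent.P.MP_eeb913_an.Defs

/-!
Upper bounds for the Kolmogorov-Sinai entropy through the Gibbs inequality.
-/

namespace Pool.Agent.P.MP_eeb913_an

open MeasureTheory Filter Finset Topology

variable {X : Type} [MeasurableSpace X]

theorem gibbs_fin {ι : Type} [Fintype ι] (p q : ι → ℝ) (hp : ∀ i, 0 ≤ p i) (hq : ∀ i, 0 < q i)
    (hp1 : ∑ i, p i = 1) (hq1 : ∑ i, q i ≤ 1) :
    ∑ i, Real.negMulLog (p i) ≤ ∑ i, p i * (-Real.log (q i)) := by
  have h : ∀ i, Real.negMulLog (p i) ≤ p i * (-Real.log (q i)) + (q i - p i) := by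
    intro i
    rcases (hp i).eq_or_lt with h0 | h0
    · rw [← h0]; simp [(hq i).le]
    · have h1 := Real.log_le_sub_one_of_pos (div_pos (hq i) h0)
      rw [Real.log_div (hq i).ne' h0.ne'] at h1
      have h2 : p i * (Real.log (q i) - Real.log (p i)) ≤ p i * (q i / p i - 1) :=
        mul_le_mul_of_nonneg_left h1 h0.le
      have h3 : p i * (q i / p i - 1) = q i - p i := by field_simp
      unfold Real.negMulLog
      nlinarith
  calc ∑ i, Real.negMulLog (p i) ≤ ∑ i, (p i * (-Real.log (q i)) + (q i - p i)) :=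
        Finset.sum_le_sum fun i _ => h i
    _ = ∑ i, p i * (-Real.log (q i)) + (∑ i, q i - ∑ i, p i) := by
        rw [Finset.sum_add_distrib, Finset.sum_sub_distrib]
    _ ≤ _ := by linarith

theorem gibbs {ι : Type} [Fintype ι] [MeasurableSpace ι] [MeasurableSingletonClass ι]
    (ν : Measure X) [IsProbabilityMeasure ν] (τ : X → ι) (hτ : Measurable τ) (q : ι → ℝ)
    (hq : ∀ i, 0 < q i) (hq1 : ∑ i, q i ≤ 1) (g : X → ℝ) (hg : Integrable g ν)
    (hle : ∀ᵐ x ∂ν, -Real.log (q (τ x)) ≤ g x) : partitionEntropy ν τ ≤ ∫ x, g x ∂ν := by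
  have : IsProbabilityMeasure (ν.map τ) := Measure.isProbabilityMeasure_map hτ.aemeasurable
  have hreal : ∀ i, (ν.map τ).real {i} = ν.real (τ ⁻¹' {i}) := fun i => by
    rw [map_measureReal_apply hτ (measurableSet_singleton i)]
  have h1 : ∑ i, ν.real (τ ⁻¹' {i}) = 1 := by
    have := integral_fintype (μ := ν.map τ) (f := fun _ : ι => (1 : ℝ)) (integrable_const _)
    simp only [integral_const, probReal_univ, smul_eq_mul, mul_one, hreal] at this
    exact this.symm
  have h2 := gibbs_fin (fun i => ν.real (τ ⁻¹' {i})) q (fun i => measureReal_nonneg) hq h1 hq1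
  have hmeas : Measurable (fun i => -Real.log (q i)) := measurable_of_finite _
  have h3 := integral_fintype (μ := ν.map τ) (f := fun i => -Real.log (q i)) Integrable.of_finite
  rw [integral_map hτ.aemeasurable hmeas.aestronglyMeasurable] at h3
  simp only [hreal, smul_eq_mul] at h3
  have h4 : Integrable (fun x => -Real.log (q (τ x))) ν :=
    (integrable_map_measure hmeas.aestronglyMeasurable hτ.aemeasurable).mp Integrable.of_finite
  calc partitionEntropy ν τ ≤ _ := h2
    _ = _ := h3.symm
    _ ≤ _ := integral_mono_ae h4 hg hle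

/-- A monotone observable is almost everywhere constant along orbits. -/
theorem null_of_lyapunov {f : X → X} {ν : Measure X} (hf : MeasurePreserving f ν ν) (g : X → ℝ)
    (hg : Integrable g ν) (hle : ∀ x, g x ≤ g (f x)) : ∀ᵐ x ∂ν, g (f x) = g x := by
  have hgf : Integrable (fun x => g (f x)) ν := hf.integrable_comp_of_integrable hg
  have h1 : ∫ x, g (f x) ∂ν = ∫ x, g x ∂ν := by
    have := integral_map (μ := ν) hf.measurable.aemeasurable (f := g)
      (by rw [hf.map_eq]; exact hg.aestronglyMeasurable)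
    rw [hf.map_eq] at this
    exact this.symm
  have h2 := (integral_eq_iff_of_ae_le hg hgf (Eventually.of_forall hle)).mp h1.symm
  filter_upwards [h2] with x hx
  exact hx.symm

theorem ksEntropy_dirac [MeasurableSingletonClass X] (f : X → X) (P : X) :
    ksEntropy f (Measure.dirac P) = 0 := by
  have h0 : ∀ {ι : Type} [Fintype ι] (τ : X → ι), partitionEntropy (Measure.dirac P) τ = 0 := by
    intro ι _ τ
    unfold partitionEntropy
    refine Finset.sum_eq_zero fun i _ => ?_
    by_cases h : P ∈ τ ⁻¹' {i}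
    · simp [measureReal_def, Measure.dirac_apply_of_mem h]
    · simp [measureReal_def, Measure.dirac_apply, Set.indicator_of_notMem h]
  unfold ksEntropy
  simp only [h0, zero_div, EReal.coe_zero, limsup_const]
  apply le_antisymm
  · exact iSup_le fun k => iSup_le fun α => iSup_le fun _ => le_rfl
  · exact le_iSup_of_le 1 (le_iSup_of_le (fun _ => 0) (le_iSup_of_le measurable_const le_rfl))

/-- Off a set of small measure a finite partition is uniformly locally constant. -/
theorem exists_good_set [MetricSpace X] [BorelSpace X] [CompleteSpace X]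
    [SecondCountableTopology X] (ν : Measure X) [IsProbabilityMeasure ν] {k : ℕ}
    (α : X → Fin k) (hα : Measurable α) {ε : ℝ} (hε : 0 < ε) :
    ∃ (B : Set X) (δ : ℝ), MeasurableSet B ∧ ν.real B ≤ k * ε ∧ 0 < δ ∧
      ∀ x y, x ∉ B → y ∉ B → dist x y < δ → α x = α y := by
  have h1 : ∀ j : Fin k, ∃ K ⊆ α ⁻¹' {j}, IsCompact K ∧ ν ((α ⁻¹' {j}) \ K) < ENNReal.ofReal ε :=
    fun j => (hα (measurableSet_singleton j)).exists_isCompact_sdiff_lt (measure_ne_top _ _)
      (by simpa using hε)
  choose K hKsub hKc hKm using h1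
  have h2 : ∀ jl : Fin k × Fin k, ∃ δ : ℝ, 0 < δ ∧
      ∀ x ∈ K jl.1, ∀ y ∈ K jl.2, dist x y < δ → jl.1 = jl.2 := by
    rintro ⟨j, l⟩
    by_cases hjl : j = l
    · exact ⟨1, one_pos, fun _ _ _ _ _ => hjl⟩
    · have hd : Disjoint (K j) (K l) := by
        rw [Set.disjoint_left]
        intro x hx hx'
        exact hjl ((hKsub j hx).symm.trans (hKsub l hx'))
      obtain ⟨δ, hδ, hdis⟩ := hd.exists_thickenings (hKc j) (hKc l).isClosed
      refine ⟨δ, hδ, fun x hx y hy hxy => ?_⟩
      exfalso
      rw [Set.disjoint_left] at hdis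
      exact hdis (Metric.self_subset_thickening hδ _ hx)
        (Metric.mem_thickening_iff.mpr ⟨y, hy, hxy⟩)
  choose δ hδ hδK using h2
  obtain ⟨δ₀, hδ₀, hδle⟩ : ∃ δ₀ : ℝ, 0 < δ₀ ∧ ∀ jl, δ₀ ≤ δ jl := by
    rcases isEmpty_or_nonempty (Fin k × Fin k) with h | h
    · exact ⟨1, one_pos, fun jl => h.elim jl⟩
    · obtain ⟨jl, hjl⟩ := Finite.exists_min δ
      exact ⟨δ jl, hδ jl, hjl⟩
  refine ⟨⋃ j, (α ⁻¹' {j}) \ K j, δ₀, ?_, ?_, hδ₀, ?_⟩
  · exact MeasurableSet.iUnion fun j =>
      (hα (measurableSet_singleton j)).diff (hKc j).isClosed.measurableSet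
  · calc ν.real (⋃ j, (α ⁻¹' {j}) \ K j) ≤ ∑ j, ν.real ((α ⁻¹' {j}) \ K j) :=
          measureReal_iUnion_fintype_le _
      _ ≤ ∑ _j : Fin k, ε := Finset.sum_le_sum fun j _ => by
          rw [measureReal_def]
          exact ENNReal.toReal_le_of_le_ofReal hε.le (hKm j).le
      _ = k * ε := by simp
  · intro x y hx hy hxy
    simp only [Set.mem_iUnion, Set.mem_sdiff, not_exists, not_and, not_not] at hx hy
    exact hδK (α x, α y) x (hx _ rfl) y (hy _ rfl) (lt_of_lt_of_le hxy (hδle _))

/-- The basic estimate for the entropy of the `n`-fold join. -/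
theorem join_entropy_le [MeasurableSingletonClass X] {f : X → X} {ν : Measure X}
    [IsProbabilityMeasure ν] (hf : MeasurePreserving f ν ν) (P Q : X) {k : ℕ} (hk : 0 < k)
    (α : X → Fin k) (hα : Measurable α) (B : Set X) (hB : MeasurableSet B) (G : Set X)
    (hG : ∀ᵐ x ∂ν, x ∈ G) (n : ℕ) {κ : Type} (C : Finset κ) (hC : C.Nonempty) (cell : X → κ)
    (hcell : ∀ x ∈ G, cell x ∈ C)
    (hsep : ∀ x ∈ G, ∀ y ∈ G, cell x = cell y → ∀ i < n, f^[i] x ∉ B → f^[i] y ∉ B →
      α (f^[i] x) = α (f^[i] y)) :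
    partitionEntropy ν (fun (x : X) (i : Fin n) => α (f^[i] x)) ≤
      Real.log 4 + ν.real {P, Q}ᶜ * (Real.log C.card + n * Real.log 2)
        + n * (Real.log k * ν.real B) := by
  classical
  set τ : X → (Fin n → Fin k) := fun x i => α (f^[i] x) with hτdef
  have hτ : Measurable τ := measurable_pi_lambda _ fun i => hα.comp (hf.measurable.iterate i)
  have hj : ∀ (c : κ) (i : Fin n), ∃ j : Fin k, ∀ x ∈ G, cell x = c → f^[i] x ∉ B →
      α (f^[i] x) = j := by
    intro c i
    by_cases h : ∃ x ∈ G, cell x = c ∧ f^[i] x ∉ B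
    · obtain ⟨x, hx, hxc, hxB⟩ := h
      exact ⟨α (f^[i] x), fun y hy hyc hyB => hsep y hy x hx (hyc.trans hxc.symm) i i.2 hyB hxB⟩
    · exact ⟨⟨0, hk⟩, fun y hy hyc hyB => absurd ⟨y, hy, hyc, hyB⟩ h⟩
  choose j hj using hj
  have hkR : (0 : ℝ) < k := by exact_mod_cast hk
  have hk1 : (1 : ℝ) ≤ k := by exact_mod_cast hk
  have hN : (0 : ℝ) < C.card := by exact_mod_cast hC.card_pos
  have hN1 : (1 : ℝ) ≤ C.card := by exact_mod_cast hC.card_pos
  let q1 : κ → Fin n → Fin k → ℝ := fun c i l => (if l = j c i then 1 / 2 else 0) + 1 / (2 * k)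
  have hq1pos : ∀ c i l, 0 < q1 c i l := by
    intro c i l
    have : (0 : ℝ) < 1 / (2 * k) := by positivity
    simp only [q1]
    split_ifs <;> linarith
  have hq1sum : ∀ c i, ∑ l, q1 c i l = 1 := by
    intro c i
    simp only [q1, Finset.sum_add_distrib, Finset.sum_ite_eq', Finset.mem_univ, if_true,
      Finset.sum_const, Finset.card_univ, Fintype.card_fin, nsmul_eq_mul]
    field_simp
    norm_num
  let q : (Fin n → Fin k) → ℝ := fun w =>
    (if w = τ P then 1 / 4 else 0) + (if w = τ Q then 1 / 4 else 0) +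
      (1 / (2 * C.card)) * ∑ c ∈ C, ∏ i, q1 c i (w i)
  have hq3pos : ∀ w : Fin n → Fin k, 0 < (1 / (2 * C.card) : ℝ) * ∑ c ∈ C, ∏ i, q1 c i (w i) := by
    intro w
    apply mul_pos (by positivity)
    exact Finset.sum_pos (fun c _ => Finset.prod_pos fun i _ => hq1pos c i _) hC
  have hqpos : ∀ w, 0 < q w := by
    intro w
    have := hq3pos w
    simp only [q]
    split_ifs <;> linarith
  have hqsum : ∑ w, q w ≤ 1 := by
    simp only [q, Finset.sum_add_distrib, Finset.sum_ite_eq', Finset.mem_univ, if_true]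
    rw [← Finset.mul_sum, Finset.sum_comm]
    have : ∀ c ∈ C, ∑ w : Fin n → Fin k, ∏ i, q1 c i (w i) = 1 := by
      intro c _
      rw [← Fintype.piFinset_univ, ← Finset.prod_univ_sum]
      simp [hq1sum]
    rw [Finset.sum_congr rfl this]
    simp only [Finset.sum_const, nsmul_eq_mul, mul_one]
    have : (1 / (2 * C.card) : ℝ) * C.card = 1 / 2 := by field_simp
    linarith
  have hS : MeasurableSet ({P, Q}ᶜ : Set X) := (Set.toFinite _).measurableSet.compl
  let g : X → ℝ := fun x => Real.log 4 +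
    ({P, Q}ᶜ : Set X).indicator (fun _ => Real.log C.card + n * Real.log 2) x +
    ∑ i : Fin n, B.indicator (fun _ => Real.log k) (f^[i] x)
  have hint1 : Integrable
      (({P, Q}ᶜ : Set X).indicator (fun _ => Real.log C.card + n * Real.log 2)) ν :=
    (integrable_const _).indicator hS
  have hint2 : Integrable (B.indicator (fun _ => Real.log k)) ν :=
    (integrable_const _).indicator hB
  have hint3 : ∀ i : ℕ, Integrable (fun x => B.indicator (fun _ => Real.log k) (f^[i] x)) ν :=
    fun i => (hf.iterate i).integrable_comp_of_integrable hint2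
  have hint4 : Integrable
      (fun x => ∑ i : Fin n, B.indicator (fun _ => Real.log k) (f^[i] x)) ν :=
    integrable_finsetSum _ fun i _ => hint3 i
  have hint5 : Integrable (fun x => Real.log 4 +
      ({P, Q}ᶜ : Set X).indicator (fun _ => Real.log C.card + n * Real.log 2) x) ν :=
    (integrable_const _).add hint1
  have hgint : Integrable g ν := hint5.add hint4
  have hval : ∫ x, g x ∂ν = Real.log 4 + ν.real {P, Q}ᶜ * (Real.log C.card + n * Real.log 2)
      + n * (Real.log k * ν.real B) := by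
    simp only [g]
    rw [integral_add hint5 hint4,
      integral_add (integrable_const _) hint1, integral_finsetSum _ fun (i : Fin n) _ => hint3 i,
      integral_indicator_const _ hS]
    have : ∀ i : Fin n, ∫ x, B.indicator (fun _ => Real.log k) (f^[i] x) ∂ν
        = Real.log k * ν.real B := by
      intro i
      have h1 := integral_map (μ := ν) (hf.iterate i).measurable.aemeasurable
        (f := B.indicator (fun _ => Real.log k))
        (by rw [(hf.iterate i).map_eq]; exact hint2.aestronglyMeasurable)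
      rw [(hf.iterate i).map_eq] at h1
      rw [← h1, integral_indicator_const _ hB, smul_eq_mul, mul_comm]
    simp [this]
  rw [← hval]
  refine gibbs ν τ hτ q hqpos hqsum g hgint ?_
  filter_upwards [hG] with x hx
  have hlogk : 0 ≤ Real.log k := Real.log_nonneg hk1
  have hsum0 : 0 ≤ ∑ i : Fin n, B.indicator (fun _ => Real.log k) (f^[i] x) :=
    Finset.sum_nonneg fun i _ => Set.indicator_nonneg (fun _ _ => hlogk) _
  by_cases hxS : x ∈ ({P, Q}ᶜ : Set X)
  · have h1 : (1 / (2 * C.card) : ℝ) * ∏ i, q1 (cell x) i (τ x i) ≤ q (τ x) := by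
      have h2 : ∏ i, q1 (cell x) i (τ x i) ≤ ∑ c ∈ C, ∏ i, q1 c i (τ x i) :=
        Finset.single_le_sum (f := fun c => ∏ i, q1 c i (τ x i))
          (fun c _ => (Finset.prod_pos fun i _ => hq1pos c i _).le) (hcell x hx)
      have h3 := mul_le_mul_of_nonneg_left h2 (by positivity : (0 : ℝ) ≤ 1 / (2 * C.card))
      simp only [q]
      split_ifs <;> linarith
    have h4 : ∀ i : Fin n, -Real.log (q1 (cell x) i (τ x i)) ≤
        Real.log 2 + B.indicator (fun _ => Real.log k) (f^[i] x) := by
      intro i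
      by_cases hB' : f^[i] x ∈ B
      · rw [Set.indicator_of_mem hB', ← Real.log_mul (by norm_num) hkR.ne', ← Real.log_inv]
        apply Real.log_le_log (inv_pos.mpr (hq1pos _ _ _))
        rw [inv_le_comm₀ (hq1pos _ _ _) (by positivity), ← one_div]
        simp only [q1]
        split_ifs <;> linarith
      · rw [Set.indicator_of_notMem hB', add_zero, ← Real.log_inv]
        apply Real.log_le_log (inv_pos.mpr (hq1pos _ _ _))
        rw [inv_le_comm₀ (hq1pos _ _ _) (by positivity), ← one_div]
        have h5 : τ x i = j (cell x) i := hj (cell x) i x hx rfl hB'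
        have h6 : (0 : ℝ) < 1 / (2 * k) := by positivity
        simp only [q1, h5, if_true]
        linarith
    have h5 := Real.log_le_log (mul_pos (by positivity)
      (Finset.prod_pos fun i _ => hq1pos _ i _)) h1
    rw [Real.log_mul (by positivity) (Finset.prod_pos fun i _ => hq1pos _ i _).ne',
      Real.log_prod (fun i _ => (hq1pos _ i _).ne'), one_div, Real.log_inv,
      Real.log_mul (by norm_num) hN.ne'] at h5
    have h6 := Finset.sum_le_sum fun i (_ : i ∈ (Finset.univ : Finset (Fin n))) => h4 i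
    rw [Finset.sum_add_distrib, Finset.sum_neg_distrib] at h6
    simp only [Finset.sum_const, Finset.card_univ, Fintype.card_fin, nsmul_eq_mul] at h6
    have h7 : Real.log 2 ≤ Real.log 4 := Real.log_le_log (by norm_num) (by norm_num)
    simp only [g, Set.indicator_of_mem hxS]
    linarith
  · have h1 : (1 / 4 : ℝ) ≤ q (τ x) := by
      have := hq3pos (τ x)
      simp only [Set.mem_compl_iff, Set.mem_insert_iff, Set.mem_singleton_iff, not_not] at hxS
      simp only [q]
      rcases hxS with rfl | rfl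
      · simp only [if_true]; split_ifs <;> linarith
      · simp only [if_true]; split_ifs <;> linarith
    have h2 := Real.log_le_log (by norm_num) h1
    rw [one_div, Real.log_inv] at h2
    simp only [g, Set.indicator_of_notMem hxS]
    linarith

/-- The entropy is at most a constant times the mass off `{P, Q}`. -/
theorem ksEntropy_le [MetricSpace X] [BorelSpace X] [CompleteSpace X]
    [SecondCountableTopology X] {f : X → X} {ν : Measure X}
    [IsProbabilityMeasure ν] (hf : MeasurePreserving f ν ν) (P Q : X) (G : Set X)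
    (hG : ∀ᵐ x ∂ν, x ∈ G) (D : ℝ) {κ : Type}
    (hcells : ∀ δ : ℝ, 0 < δ → ∃ A : ℝ, ∀ n : ℕ, ∃ (C : Finset κ) (cell : X → κ), C.Nonempty ∧
      Real.log C.card ≤ A + n * D ∧ (∀ x ∈ G, cell x ∈ C) ∧
      ∀ x ∈ G, ∀ y ∈ G, cell x = cell y → ∀ i < n, dist (f^[i] x) (f^[i] y) < δ) :
    ksEntropy f ν ≤ ((ν.real {P, Q}ᶜ * (D + Real.log 2) : ℝ) : EReal) := by
  refine iSup_le fun k => iSup_le fun α => iSup_le fun hα => ?_
  have hk : 0 < k := Fin.pos (α P)
  have hkR : (0 : ℝ) < k := by exact_mod_cast hk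
  have hlogk : 0 ≤ Real.log k := Real.log_nonneg (by exact_mod_cast hk)
  set r := ν.real {P, Q}ᶜ with hr
  have hr0 : 0 ≤ r := measureReal_nonneg
  apply EReal.le_of_forall_lt_iff_le.mp
  intro z hz
  rw [EReal.coe_lt_coe_iff] at hz
  set η := z - r * (D + Real.log 2) with hη
  have hη0 : 0 < η := by linarith
  obtain ⟨B, δ, hB, hBm, hδ, hBδ⟩ := exists_good_set ν α hα
    (ε := η / (2 * k * (Real.log k + 1))) (by positivity)
  obtain ⟨A, hA⟩ := hcells δ hδ
  have hBk : Real.log k * ν.real B ≤ η / 2 := by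
    have h1 : (k : ℝ) * (η / (2 * k * (Real.log k + 1))) = η / (2 * (Real.log k + 1)) := by
      field_simp
    rw [h1] at hBm
    calc Real.log k * ν.real B ≤ (Real.log k + 1) * (η / (2 * (Real.log k + 1))) :=
          mul_le_mul (by linarith) hBm measureReal_nonneg (by linarith)
      _ = η / 2 := by field_simp
  apply limsup_le_of_le (hf := by isBoundedDefault)
  have hev : ∀ᶠ n : ℕ in atTop, (Real.log 4 + r * A) / n < η / 2 :=
    (tendsto_const_div_atTop_nhds_zero_nat _).eventually (gt_mem_nhds (by positivity))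
  filter_upwards [hev, eventually_gt_atTop 0] with n hn hn0
  obtain ⟨C, cell, hC, hCcard, hcell, hsep⟩ := hA n
  have h1 := join_entropy_le hf P Q hk α hα B hB G hG n C hC cell hcell
    (fun x hx y hy hxy i hi hxB hyB => hBδ _ _ hxB hyB (hsep x hx y hy hxy i hi))
  have hnR : (0 : ℝ) < n := by exact_mod_cast hn0
  rw [EReal.coe_le_coe_iff, div_le_iff₀ hnR]
  rw [div_lt_iff₀ hnR] at hn
  have h2 := mul_le_mul_of_nonneg_left hCcard hr0
  have h3 := mul_le_mul_of_nonneg_left hBk hnR.le
  have h4 : z = η + r * (D + Real.log 2) := by rw [hη]; ring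
  rw [h4]
  nlinarith

end Pool.Agent.P.MP_eeb913_an
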