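import Mathlib
import Pool.Agent.P.MP_eeb913_an.Entropy

/-!
The cubic Henon map `(x, y) ↦ ((3 x - x ^ 3) / 4 + y / 2, x)` with the two sinks `± (1, 1)`.
-/

namespace Pool.Agent.P.MP_eeb913_an

open MeasureTheory Filter Topology

/-- The cubic Henon map. -/
noncomputable def F (z : ℂ × ℂ) : ℂ × ℂ := ((3 * z.1 - z.1 ^ 3) / 4 + z.2 / 2, z.1)

theorem F_continuous : Continuous F := by unfold F; fun_prop

theorem norm_cubic_ge (x : ℂ) : ‖x‖ ^ 3 / 4 - 3 * ‖x‖ / 4 ≤ ‖(3 * x - x ^ 3) / 4‖ := by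
  have h1 : ‖x ^ 3‖ - ‖3 * x‖ ≤ ‖x ^ 3 - 3 * x‖ := norm_sub_norm_le _ _
  rw [norm_sub_rev, norm_pow, norm_mul] at h1
  rw [norm_div]
  simp only [Complex.norm_ofNat] at h1 ⊢
  linarith

theorem forward_escape {z : ℂ × ℂ} (h1 : 3 < ‖z.1‖) (h2 : ‖z.2‖ ≤ ‖z.1‖) :
    ‖z.1‖ < ‖(F z).1‖ := by
  have h3 := norm_cubic_ge z.1
  have h4 : ‖(3 * z.1 - z.1 ^ 3) / 4‖ ≤ ‖(F z).1‖ + ‖z.2‖ / 2 := by
    have : (3 * z.1 - z.1 ^ 3) / 4 = (F z).1 - z.2 / 2 := by simp [F]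
    rw [this]
    refine (norm_sub_le _ _).trans ?_
    rw [norm_div]; simp
  have h5 : 9 * ‖z.1‖ < ‖z.1‖ ^ 3 := by nlinarith [mul_pos (by linarith : 0 < ‖z.1‖ - 3) (by linarith : 0 < ‖z.1‖ + 3)]
  linarith

theorem backward_escape {z : ℂ × ℂ} (h1 : 3 < ‖(F z).2‖) (h2 : ‖(F z).1‖ ≤ ‖(F z).2‖) :
    ‖z.1‖ < ‖z.2‖ := by
  have h0 : (F z).2 = z.1 := rfl
  rw [h0] at h1 h2
  have h3 := norm_cubic_ge z.1
  have h4 : ‖(3 * z.1 - z.1 ^ 3) / 4‖ ≤ ‖(F z).1‖ + ‖z.2‖ / 2 := by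
    have : (3 * z.1 - z.1 ^ 3) / 4 = (F z).1 - z.2 / 2 := by simp [F]
    rw [this]
    refine (norm_sub_le _ _).trans ?_
    rw [norm_div]; simp
  have h5 : 9 * ‖z.1‖ < ‖z.1‖ ^ 3 := by nlinarith [mul_pos (by linarith : 0 < ‖z.1‖ - 3) (by linarith : 0 < ‖z.1‖ + 3)]
  linarith

theorem integrable_of_bdd {ν : Measure (ℂ × ℂ)} [IsProbabilityMeasure ν] {g : ℂ × ℂ → ℝ}
    (hg : Measurable g) (C : ℝ) (hC : ∀ z, |g z| ≤ C) : Integrable g ν :=
  (integrable_const C).mono' hg.aestronglyMeasurable (Eventually.of_forall hC)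

theorem abs_indicator_le {s : Set (ℂ × ℂ)} {g : ℂ × ℂ → ℝ} {C : ℝ} (hC : 0 ≤ C)
    (h : ∀ z ∈ s, |g z| ≤ C) (z : ℂ × ℂ) : |s.indicator g z| ≤ C := by
  by_cases hz : z ∈ s
  · rw [Set.indicator_of_mem hz]; exact h z hz
  · rw [Set.indicator_of_notMem hz]; simpa using hC

theorem abs_arctan_le (t : ℝ) : |Real.arctan t| ≤ 2 := by
  have h1 := Real.arctan_lt_pi_div_two t
  have h2 := Real.neg_pi_div_two_lt_arctan t
  have h3 := Real.pi_le_four
  rw [abs_le]; constructor <;> linarith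

theorem ae_bounded {ν : Measure (ℂ × ℂ)} [IsProbabilityMeasure ν] (hf : MeasurePreserving F ν ν) :
    ∀ᵐ z ∂ν, ‖z‖ ≤ 3 := by
  let U : Set (ℂ × ℂ) := {z | 3 < ‖z.1‖ ∧ ‖z.2‖ ≤ ‖z.1‖}
  let W : Set (ℂ × ℂ) := {z | 3 < ‖z.2‖ ∧ ‖z.1‖ ≤ ‖z.2‖}
  have m1 : Measurable fun z : ℂ × ℂ => ‖z.1‖ := by fun_prop
  have m2 : Measurable fun z : ℂ × ℂ => ‖z.2‖ := by fun_prop
  have hU : MeasurableSet U :=
    (measurableSet_lt measurable_const m1).inter (measurableSet_le m2 m1)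
  have hW : MeasurableSet W :=
    (measurableSet_lt measurable_const m2).inter (measurableSet_le m1 m2)
  have hFU : ∀ z ∈ U, F z ∈ U ∧ ‖z.1‖ < ‖(F z).1‖ := by
    intro z hz
    have := forward_escape hz.1 hz.2
    exact ⟨⟨hz.1.trans this, this.le⟩, this⟩
  have hFW : ∀ z, F z ∈ W → z ∈ W ∧ ‖(F z).2‖ < ‖z.2‖ := by
    intro z hz
    have := backward_escape hz.1 hz.2
    exact ⟨⟨hz.1.trans this, this.le⟩, this⟩
  have h1 := null_of_lyapunov hf (U.indicator fun z => Real.arctan ‖z.1‖)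
    (integrable_of_bdd (Measurable.indicator (by fun_prop) hU) 2
      (abs_indicator_le (by norm_num) fun z _ => abs_arctan_le _)) (by
      intro z
      by_cases hz : z ∈ U
      · rw [Set.indicator_of_mem hz, Set.indicator_of_mem (hFU z hz).1]
        exact (Real.arctan_strictMono (hFU z hz).2).le
      · rw [Set.indicator_of_notMem hz]
        exact Set.indicator_nonneg (fun w _ => Real.arctan_nonneg.mpr (norm_nonneg _)) _)
  have h2 := null_of_lyapunov hf (W.indicator fun z => -Real.arctan ‖z.2‖)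
    (integrable_of_bdd (Measurable.indicator (by fun_prop) hW) 2
      (abs_indicator_le (by norm_num) fun z _ => by rw [abs_neg]; exact abs_arctan_le _)) (by
      intro z
      by_cases hz : F z ∈ W
      · rw [Set.indicator_of_mem hz, Set.indicator_of_mem (hFW z hz).1]
        exact neg_le_neg (Real.arctan_strictMono (hFW z hz).2).le
      · rw [Set.indicator_of_notMem hz]
        exact Set.indicator_nonpos
          (fun w _ => neg_nonpos.mpr (Real.arctan_nonneg.mpr (norm_nonneg _))) _)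
  have h3 : ∀ᵐ z ∂ν, z ∉ U := by
    filter_upwards [h1] with z hz hzU
    rw [Set.indicator_of_mem hzU, Set.indicator_of_mem (hFU z hzU).1] at hz
    exact (Real.arctan_strictMono (hFU z hzU).2).ne' hz
  have h4 : ∀ᵐ z ∂ν, F z ∉ W := by
    filter_upwards [h2] with z hz hzW
    rw [Set.indicator_of_mem hzW, Set.indicator_of_mem (hFW z hzW).1] at hz
    exact (Real.arctan_strictMono (hFW z hzW).2).ne (neg_inj.mp hz)
  have h5 : ∀ᵐ z ∂ν, z ∉ W := by
    rw [← hf.map_eq]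
    exact (ae_map_iff hf.measurable.aemeasurable hW.compl).mpr h4
  filter_upwards [h3, h5] with z hzU hzW
  rw [Prod.norm_def]
  by_contra h
  rw [not_le, lt_max_iff] at h
  rcases le_total ‖z.1‖ ‖z.2‖ with h6 | h6
  · exact hzW ⟨by rcases h with h | h <;> linarith, h6⟩
  · exact hzU ⟨by rcases h with h | h <;> linarith, h6⟩

theorem F_lip {z w : ℂ × ℂ} (hz : ‖z‖ ≤ 3) (hw : ‖w‖ ≤ 3) : dist (F z) (F w) ≤ 8 * dist z w := by
  have h1 : ‖z.1‖ ≤ 3 := (norm_fst_le z).trans hz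
  have h2 : ‖w.1‖ ≤ 3 := (norm_fst_le w).trans hw
  have h3 : ‖z.1 - w.1‖ ≤ dist z w := by rw [dist_eq_norm]; exact norm_fst_le (z - w)
  have h4 : ‖z.2 - w.2‖ ≤ dist z w := by rw [dist_eq_norm]; exact norm_snd_le (z - w)
  have h0 : 0 ≤ dist z w := dist_nonneg
  rw [Prod.dist_eq, max_le_iff, dist_eq_norm (F z).1, dist_eq_norm (F z).2]
  constructor
  · have h5 : (F z).1 - (F w).1 =
        (z.1 - w.1) * ((3 - (z.1 ^ 2 + z.1 * w.1 + w.1 ^ 2)) / 4) + (z.2 - w.2) / 2 := by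
      simp only [F]; ring
    have h6 : ‖(3 - (z.1 ^ 2 + z.1 * w.1 + w.1 ^ 2)) / 4‖ ≤ 15 / 2 := by
      rw [norm_div]
      have h7 : ‖3 - (z.1 ^ 2 + z.1 * w.1 + w.1 ^ 2)‖ ≤
          3 + (‖z.1‖ ^ 2 + ‖z.1‖ * ‖w.1‖ + ‖w.1‖ ^ 2) := by
        refine (norm_sub_le _ _).trans ?_
        have := norm_add₃_le (a := z.1 ^ 2) (b := z.1 * w.1) (c := w.1 ^ 2)
        rw [norm_pow, norm_pow, norm_mul] at this
        simp only [Complex.norm_ofNat]
        linarith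
      simp only [Complex.norm_ofNat]
      nlinarith [norm_nonneg z.1, norm_nonneg w.1]
    rw [h5]
    refine (norm_add_le _ _).trans ?_
    rw [norm_mul, norm_div (z.2 - w.2)]
    simp only [Complex.norm_ofNat]
    nlinarith [norm_nonneg (z.1 - w.1)]
  · change ‖z.1 - w.1‖ ≤ _
    linarith

theorem floor_close {m a b : ℝ} (hm : 0 < m) (h : ⌊m * a⌋ = ⌊m * b⌋) : |a - b| < 1 / m := by
  have h1 := Int.abs_sub_lt_one_of_floor_eq_floor h
  rw [← mul_sub, abs_mul, abs_of_pos hm] at h1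
  rw [lt_div_iff₀ hm]; linarith

theorem floor_mem {m : ℕ} {a : ℝ} (ha : |a| ≤ 3) :
    ⌊(m : ℝ) * a⌋ ∈ Finset.Icc (-(3 * m : ℤ)) (3 * m) := by
  rw [abs_le] at ha
  have hm : (0 : ℝ) ≤ m := Nat.cast_nonneg m
  rw [Finset.mem_Icc]
  constructor
  · rw [Int.le_floor]; push_cast; nlinarith
  · rw [Int.floor_le_iff]; push_cast; nlinarith

theorem cells (δ : ℝ) (hδ : 0 < δ) : ∃ A : ℝ, ∀ n : ℕ,
    ∃ (C : Finset (ℤ × ℤ × ℤ × ℤ)) (cell : ℂ × ℂ → ℤ × ℤ × ℤ × ℤ), C.Nonempty ∧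
      Real.log C.card ≤ A + n * (4 * Real.log 8) ∧
      (∀ x ∈ {z : ℂ × ℂ | ∀ i, ‖F^[i] z‖ ≤ 3}, cell x ∈ C) ∧
      ∀ x ∈ {z : ℂ × ℂ | ∀ i, ‖F^[i] z‖ ≤ 3}, ∀ y ∈ {z : ℂ × ℂ | ∀ i, ‖F^[i] z‖ ≤ 3},
        cell x = cell y → ∀ i < n, dist (F^[i] x) (F^[i] y) < δ := by
  obtain ⟨m₀, hm₀⟩ := exists_nat_gt (2 / δ)
  have hm₀pos : (0 : ℝ) < m₀ := lt_trans (by positivity) hm₀
  have hm₀1 : 1 ≤ m₀ := by exact_mod_cast hm₀pos
  refine ⟨4 * Real.log (7 * m₀), fun n => ?_⟩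
  set m : ℕ := m₀ * 8 ^ n with hm
  have hm1 : 1 ≤ m := Nat.mul_pos hm₀1 (by positivity)
  have hmR : (0 : ℝ) < m := by exact_mod_cast hm1
  set I : Finset ℤ := Finset.Icc (-(3 * m : ℤ)) (3 * m) with hI
  have hIcard : I.card = 6 * m + 1 := by
    rw [hI, Int.card_Icc]
    omega
  refine ⟨I ×ˢ I ×ˢ I ×ˢ I,
    fun z => (⌊(m : ℝ) * z.1.re⌋, ⌊(m : ℝ) * z.1.im⌋, ⌊(m : ℝ) * z.2.re⌋, ⌊(m : ℝ) * z.2.im⌋),
    ?_, ?_, ?_, ?_⟩
  · rw [← Finset.card_pos]
    simp only [Finset.card_product, hIcard]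
    positivity
  · simp only [Finset.card_product, hIcard]
    have h1 : ((6 * m + 1 : ℕ) : ℝ) ≤ 7 * m₀ * 8 ^ n := by
      have : 6 * m + 1 ≤ 7 * m₀ * 8 ^ n := by rw [mul_assoc, ← hm]; omega
      exact_mod_cast this
    have h2 := Real.log_le_log (by positivity) h1
    rw [Real.log_mul (by positivity) (by positivity), Real.log_pow] at h2
    have h3 : (((6 * m + 1) * ((6 * m + 1) * ((6 * m + 1) * (6 * m + 1))) : ℕ) : ℝ) =
        ((6 * m + 1 : ℕ) : ℝ) ^ 4 := by push_cast; ring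
    rw [h3, Real.log_pow]
    push_cast at h2 ⊢
    linarith
  · intro x hx
    have h0 : ‖x‖ ≤ 3 := hx 0
    have h1 : ‖x.1‖ ≤ 3 := (norm_fst_le x).trans h0
    have h2 : ‖x.2‖ ≤ 3 := (norm_snd_le x).trans h0
    simp only [Finset.mem_product]
    exact ⟨floor_mem ((Complex.abs_re_le_norm _).trans h1),
      floor_mem ((Complex.abs_im_le_norm _).trans h1),
      floor_mem ((Complex.abs_re_le_norm _).trans h2),
      floor_mem ((Complex.abs_im_le_norm _).trans h2)⟩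
  · intro x hx y hy hxy i hi
    simp only [Prod.mk.injEq] at hxy
    obtain ⟨e1, e2, e3, e4⟩ := hxy
    have c1 := floor_close hmR e1
    have c2 := floor_close hmR e2
    have c3 := floor_close hmR e3
    have c4 := floor_close hmR e4
    have hd : dist x y < 2 / m := by
      rw [Prod.dist_eq, max_lt_iff, dist_eq_norm, dist_eq_norm]
      have d1 := Complex.norm_le_abs_re_add_abs_im (x.1 - y.1)
      have d2 := Complex.norm_le_abs_re_add_abs_im (x.2 - y.2)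
      simp only [Complex.sub_re, Complex.sub_im] at d1 d2
      have : (2 : ℝ) / m = 1 / m + 1 / m := by ring
      constructor <;> linarith
    have hit : ∀ j : ℕ, dist (F^[j] x) (F^[j] y) ≤ 8 ^ j * dist x y := by
      intro j
      induction j with
      | zero => simp
      | succ j ih =>
        rw [Function.iterate_succ_apply', Function.iterate_succ_apply']
        refine (F_lip (hx j) (hy j)).trans ?_
        rw [pow_succ]; linarith
    have h8 : (8 : ℝ) ^ i ≤ 8 ^ n := pow_le_pow_right₀ (by norm_num) hi.le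
    have hmeq : (m : ℝ) = m₀ * 8 ^ n := by rw [hm]; push_cast; ring
    calc dist (F^[i] x) (F^[i] y) ≤ 8 ^ i * dist x y := hit i
      _ ≤ 8 ^ n * dist x y := mul_le_mul_of_nonneg_right h8 dist_nonneg
      _ < 8 ^ n * (2 / m) := mul_lt_mul_of_pos_left hd (by positivity)
      _ = 2 / m₀ := by rw [hmeq]; field_simp
      _ < δ := by
        rw [div_lt_iff₀ hm₀pos]
        rw [div_lt_iff₀ hδ] at hm₀
        linarith

theorem ksEntropy_F_le {ν : Measure (ℂ × ℂ)} [IsProbabilityMeasure ν]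
    (hf : MeasurePreserving F ν ν) (P Q : ℂ × ℂ) :
    ksEntropy F ν ≤ ((ν.real {P, Q}ᶜ * (4 * Real.log 8 + Real.log 2) : ℝ) : EReal) := by
  refine ksEntropy_le hf P Q {z : ℂ × ℂ | ∀ i, ‖F^[i] z‖ ≤ 3} ?_ _ cells
  change ∀ᵐ z ∂ν, ∀ i, ‖F^[i] z‖ ≤ 3
  rw [ae_all_iff]
  intro i
  exact (hf.iterate i).quasiMeasurePreserving.ae (ae_bounded hf)

/-- An adapted distance to the point `(s, s)`. -/
noncomputable def N (s : ℂ) (z : ℂ × ℂ) : ℝ := 4 * ‖z.1 - s‖ + 3 * ‖z.2 - s‖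

theorem N_nonneg (s : ℂ) (z : ℂ × ℂ) : 0 ≤ N s z := by unfold N; positivity

theorem N_continuous (s : ℂ) : Continuous (N s) := by unfold N; fun_prop

theorem N_contract {s : ℂ} (hs : s ^ 2 = 1) {z : ℂ × ℂ} (hz : N s z < 1) :
    N s (F z) ≤ N s z ∧ (z ≠ (s, s) → N s (F z) < N s z) := by
  have hs1 : ‖s‖ = 1 := by
    have h : ‖s‖ ^ 2 = 1 := by rw [← norm_pow, hs, norm_one]
    nlinarith [norm_nonneg s]
  set u := z.1 - s with hu
  set v := z.2 - s with hv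
  have h1 : (F z).1 - s = -(u * (u * (3 * s + u))) / 4 + v / 2 := by
    have e1 : z.1 = s + u := by rw [hu]; ring
    have e2 : z.2 = s + v := by rw [hv]; ring
    simp only [F]
    rw [e1, e2]
    linear_combination (-(s + 3 * u) / 4) * hs
  have h2 : (F z).2 - s = u := rfl
  have hu0 := norm_nonneg u
  have hv0 := norm_nonneg v
  have hz' : 4 * ‖u‖ + 3 * ‖v‖ < 1 := hz
  have h3 : ‖3 * s + u‖ ≤ 3 + ‖u‖ := by
    refine (norm_add_le _ _).trans ?_
    rw [norm_mul, hs1]; simp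
  have h4 : ‖(F z).1 - s‖ ≤ ‖u‖ * (13 / 16) / 4 + ‖v‖ / 2 := by
    rw [h1]
    refine (norm_add_le _ _).trans ?_
    rw [norm_div, norm_div, norm_neg, norm_mul, norm_mul]
    simp only [Complex.norm_ofNat]
    have h5 : ‖u‖ * ‖3 * s + u‖ ≤ 13 / 16 := by
      calc ‖u‖ * ‖3 * s + u‖ ≤ (1 / 4) * (3 + 1 / 4) :=
            mul_le_mul (by linarith) (by linarith) (norm_nonneg _) (by norm_num)
        _ = 13 / 16 := by norm_num
    have := mul_le_mul_of_nonneg_left h5 hu0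
    linarith
  have h6 : N s (F z) ≤ N s z - (3 / 16 * ‖u‖ + ‖v‖) := by
    unfold N
    rw [h2, ← hu, ← hv]
    linarith
  refine ⟨by linarith, fun hne => ?_⟩
  have h7 : 0 < 3 / 16 * ‖u‖ + ‖v‖ := by
    by_contra h8
    have h9 : ‖u‖ = 0 := by linarith
    have h10 : ‖v‖ = 0 := by linarith
    rw [norm_eq_zero, hu, sub_eq_zero] at h9
    rw [norm_eq_zero, hv, sub_eq_zero] at h10
    exact hne (Prod.ext h9 h10)
  linarith

theorem ae_basin {ν : Measure (ℂ × ℂ)} [IsProbabilityMeasure ν] (hf : MeasurePreserving F ν ν)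
    {s : ℂ} (hs : s ^ 2 = 1) : ∀ᵐ z ∂ν, z ≠ (s, s) → 1 ≤ N s z := by
  have h1 := null_of_lyapunov hf (fun z => max 0 (1 - N s z))
    (integrable_of_bdd (continuous_const.max (continuous_const.sub (N_continuous s))).measurable 1
      (fun z => by
        rw [abs_of_nonneg (le_max_left _ _)]
        exact max_le zero_le_one (by linarith [N_nonneg s z]))) (by
      intro z
      by_cases hz : N s z < 1
      · exact max_le_max le_rfl (by linarith [(N_contract hs hz).1])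
      · rw [max_eq_left (by linarith)]
        exact le_max_left _ _)
  filter_upwards [h1] with z hz hne
  by_contra h
  rw [not_le] at h
  have h2 := (N_contract hs h).2 hne
  rw [max_eq_right (by linarith), max_eq_right (by linarith)] at hz
  linarith

/-- The weight. -/
noncomputable def φ (z : ℂ × ℂ) : ℝ :=
  -(4 * Real.log 8 + Real.log 2) * min 1 (min (N 1 z) (N (-1) z))

theorem M_nonneg : 0 ≤ 4 * Real.log 8 + Real.log 2 := by
  have h1 : 0 ≤ Real.log 8 := Real.log_nonneg (by norm_num)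
  have h2 : 0 ≤ Real.log 2 := Real.log_nonneg (by norm_num)
  linarith

theorem N_lip (s : ℂ) (z w : ℂ × ℂ) :
    |N s z - N s w| ≤ 7 * Real.sqrt (‖z.1 - w.1‖ ^ 2 + ‖z.2 - w.2‖ ^ 2) := by
  have h1 : ‖z.1 - w.1‖ ≤ Real.sqrt (‖z.1 - w.1‖ ^ 2 + ‖z.2 - w.2‖ ^ 2) :=
    Real.le_sqrt_of_sq_le (by nlinarith [sq_nonneg ‖z.2 - w.2‖])
  have h2 : ‖z.2 - w.2‖ ≤ Real.sqrt (‖z.1 - w.1‖ ^ 2 + ‖z.2 - w.2‖ ^ 2) :=
    Real.le_sqrt_of_sq_le (by nlinarith [sq_nonneg ‖z.1 - w.1‖])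
  have h3 := abs_norm_sub_norm_le (z.1 - s) (w.1 - s)
  have h4 := abs_norm_sub_norm_le (z.2 - s) (w.2 - s)
  rw [sub_sub_sub_cancel_right] at h3 h4
  rw [abs_le] at h3 h4 ⊢
  unfold N
  constructor <;> linarith [h3.1, h3.2, h4.1, h4.2]

theorem φ_lip (z w : ℂ × ℂ) : |φ z - φ w| ≤
    (4 * Real.log 8 + Real.log 2) * 7 * Real.sqrt (‖z.1 - w.1‖ ^ 2 + ‖z.2 - w.2‖ ^ 2) := by
  unfold φ
  rw [← mul_sub, abs_mul, abs_neg, abs_of_nonneg M_nonneg, mul_assoc]
  refine mul_le_mul_of_nonneg_left ?_ M_nonneg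
  refine (abs_min_sub_min_le_max _ _ _ _).trans (max_le ?_ ?_)
  · simp
  · exact (abs_min_sub_min_le_max _ _ _ _).trans (max_le (N_lip _ _ _) (N_lip _ _ _))

theorem φ_fixed {s : ℂ} (hs : s = 1 ∨ s = -1) : φ (s, s) = 0 := by
  have h : min (N 1 (s, s)) (N (-1) (s, s)) = 0 := by
    rcases hs with rfl | rfl
    · rw [min_eq_left]
      · simp [N]
      · have : N 1 (1, 1) = 0 := by simp [N]
        rw [this]; exact N_nonneg _ _
    · rw [min_eq_right]
      · simp [N]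
      · have : N (-1) (-1, -1) = 0 := by simp [N]
        rw [this]; exact N_nonneg _ _
  unfold φ
  rw [h]; simp

theorem integral_φ {ν : Measure (ℂ × ℂ)} [IsProbabilityMeasure ν] (hf : MeasurePreserving F ν ν) :
    ∫ z, φ z ∂ν = -(ν.real {(1, 1), (-1, -1)}ᶜ * (4 * Real.log 8 + Real.log 2)) := by
  have hS : MeasurableSet ({(1, 1), (-1, -1)}ᶜ : Set (ℂ × ℂ)) :=
    (Set.toFinite _).measurableSet.compl
  have h1 : ∀ᵐ z ∂ν, φ z = ({(1, 1), (-1, -1)}ᶜ : Set (ℂ × ℂ)).indicator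
      (fun _ => -(4 * Real.log 8 + Real.log 2)) z := by
    filter_upwards [ae_basin hf (s := 1) (by norm_num), ae_basin hf (s := -1) (by norm_num)]
      with z h1 h2
    by_cases hz : z ∈ ({(1, 1), (-1, -1)}ᶜ : Set (ℂ × ℂ))
    · rw [Set.indicator_of_mem hz]
      simp only [Set.mem_compl_iff, Set.mem_insert_iff, Set.mem_singleton_iff, not_or] at hz
      unfold φ
      rw [min_eq_left (le_min (h1 hz.1) (h2 hz.2)), mul_one]
    · rw [Set.indicator_of_notMem hz]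
      simp only [Set.mem_compl_iff, Set.mem_insert_iff, Set.mem_singleton_iff, not_not] at hz
      rcases hz with rfl | rfl
      · exact φ_fixed (Or.inl rfl)
      · exact φ_fixed (Or.inr rfl)
  rw [integral_congr_ae h1, integral_indicator_const _ hS, smul_eq_mul, mul_neg]

theorem pressure_le {ν : Measure (ℂ × ℂ)} (h : IsInvariantProb F ν) :
    ksEntropy F ν + ((∫ z, φ z ∂ν : ℝ) : EReal) ≤ 0 := by
  have := h.1
  rw [integral_φ h.2]
  refine (add_le_add_left (ksEntropy_F_le h.2 (1, 1) (-1, -1)) _).trans ?_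
  rw [← EReal.coe_add, add_neg_cancel, EReal.coe_zero]

theorem isEquilibrium_dirac {s : ℂ} (hs : s = 1 ∨ s = -1) :
    IsEquilibrium F φ (Measure.dirac (s, s)) := by
  have hfix : F (s, s) = (s, s) := by
    rcases hs with rfl | rfl <;> simp only [F] <;> norm_num
  have hinv : IsInvariantProb F (Measure.dirac (s, s)) :=
    ⟨inferInstance, F_continuous.measurable, by
      rw [Measure.map_dirac' F_continuous.measurable, hfix]⟩
  have hval : ksEntropy F (Measure.dirac (s, s)) +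
      ((∫ z, φ z ∂(Measure.dirac (s, s)) : ℝ) : EReal) = 0 := by
    rw [ksEntropy_dirac, integral_dirac, φ_fixed hs]; simp
  refine ⟨hinv, ?_⟩
  rw [hval]
  apply le_antisymm
  · rw [← hval]
    exact le_iSup₂_of_le (f := fun (ν : Measure (ℂ × ℂ)) (_ : IsInvariantProb F ν) =>
      ksEntropy F ν + ((∫ x, φ x ∂ν : ℝ) : EReal)) _ hinv le_rfl
  · exact iSup₂_le fun ν hν => pressure_le hν

end Pool.Agent.P.MP_eeb913_an
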